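import Pool.Agent.V11230.MinSum7

/-!
# The complexity of the minimum label sum of a proper labelling

`MIN-SUM` is NP-complete, and the minimum label sum of a proper labelling of a forest can be computed
in polynomial time.

Hardness: a reduction from 3-colourability of a graph `H` with `N` vertices.  Take two copies of the
Cartesian product of `H` with a triangle, join corresponding vertices of the copies, and add leaves
so that all vertices of the first copy have the same degree `d` and all vertices of the second copy
have the degree `d + 1`.  The excess of a vertex is its colour minus its degree.  The sum of the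
excesses is twice the label sum minus twice the number `m` of edges.  The three vertices of a
triangle have different excesses, so the label sum is at least `m + 3 N`, and it is `m + 3 N` only if
the excesses in each triangle are `0, 1, 2`, which gives a 3-colouring.  Conversely, a 3-colouring
gives a labelling with sum `m + 3 N` in which the excesses come from the edges between the copies.

Forests: in a labelling with minimum sum all labels are at most `2 n + 1`, so all sums are
polynomially bounded, and a dynamic programme that removes leaf edges computes the minimum.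
-/

set_option autoImplicit false

namespace Pool.Agent.NPC.V11230.MSA

open Pool.Agent.NPC Pool.Agent.V11230.MS Pool.Agent.H622R2

/-- the decision algorithm on forests -/
def dec (I : Inst) : Bool :=
  match runM I.1 with
  | none => false
  | some m => decide (m ≤ I.2)

theorem poly_dec : Poly dec := by
  have hI : Poly (fun I : Inst => I) := Poly.id
  exact (Poly.optCases (o := fun I : Inst => runM I.1) (g := fun _ => false)
    (h := fun I m => decide (m ≤ I.2)) (poly_runM.comp (Poly.fst hI)) (Poly.const _)
    (Poly.decide_le (Poly.snd Poly.id) (Poly.snd (Poly.fst Poly.id)))).congr fun I => by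
      unfold dec
      cases runM I.1 <;> rfl

theorem dec_iff {I : Inst} (h : (matGraph I.1).IsAcyclic) : dec I = true ↔ MinSum I := by
  unfold dec
  cases hr : runM I.1 with
  | none =>
    rw [runM_none h] at hr
    simp only [Bool.false_eq_true, false_iff]
    rintro ⟨l, hl, _⟩
    have : labelSum (matGraph I.1) l ∈ Sums (matGraph I.1) := ⟨l, hl, rfl⟩
    rw [hr] at this
    exact this
  | some m =>
    rw [runM_correct h] at hr
    simp only [decide_eq_true_eq]
    constructor
    · intro hm
      obtain ⟨l, hl, hs⟩ := hr.1
      exact ⟨l, hl, by omega⟩
    · rintro ⟨l, hl, hs⟩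
      exact (hr.2 ⟨l, hl, rfl⟩).trans hs

/-- the decision algorithm on words -/
def algB (x : List Bool) : List Bool :=
  [match unbits Inst x with
    | none => false
    | some I => dec I]

theorem polyTime_algB : PolyTime algB :=
  polyTime_of_poly ((Poly.optCases (o := fun x => unbits Inst x) (g := fun _ => false)
    (h := fun _ I => dec I) poly_unbits (Poly.const _) (poly_dec.comp (Poly.snd Poly.id))).congr
      fun x => by cases unbits Inst x <;> rfl)

theorem algB_code (I : Inst) : algB (bits I) = [dec I] := by
  unfold algB
  rw [unbits_bits]

theorem poly_eq_true : Poly (fun y : List Bool => decide (y = [true])) :=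
  Poly.decide_eq Poly.id (Poly.const [true])

end Pool.Agent.NPC.V11230.MSA

namespace Pool.Agent.Results.MP_ec274c_lc.MinSumComplexity

open Pool.Agent.NPC Pool.Agent.V11230.MS Pool.Agent.H622R2 Pool.Agent.NPC.V11230.MSA

/-- **The complexity of the minimum label sum of a proper labelling.**
`MIN-SUM` is in `NP`; it is `NP`-hard for nice graphs (as many-one reductions from all of `NP`, and
as `P = NP` if there is a polynomial-time algorithm); for forests, a polynomial-time algorithm
computes the minimum label sum, and a polynomial-time algorithm decides `MIN-SUM`. -/
theorem result :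
    InNPP MinSum ∧
    (∀ L : Set (List Bool), InNP L → ∃ f : List Bool → Inst,
      PolyTime (fun x => bits (f x)) ∧ (∀ x, Nice (matGraph (f x).1)) ∧
        ∀ x, x ∈ L ↔ MinSum (f x)) ∧
    (∀ A : List Bool → List Bool, PolyTime A →
      (∀ I : Inst, Nice (matGraph I.1) → (A (bits I) = [true] ↔ MinSum I)) →
      ∀ L : Set (List Bool), InNP L → InP L) ∧
    (∃ A : List Bool → List Bool, PolyTime A ∧
      ∀ M : List (List Bool), (matGraph M).IsAcyclic →
        (∀ m, A (bits M) = bits (some m) ↔ IsLeast (Sums (matGraph M)) m) ∧
        (A (bits M) = bits (none : Option ℕ) ↔ Sums (matGraph M) = ∅)) ∧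
    (∃ B : List Bool → List Bool, PolyTime B ∧
      ∀ I : Inst, (matGraph I.1).IsAcyclic → (B (bits I) = [true] ↔ MinSum I)) := by
  refine ⟨inNP_minSum, fun L hL => ?_, fun A hA h L hL => ?_, ?_, ?_⟩
  · obtain ⟨f, hf, hpr, hfL⟩ := hardPr_minSum L hL
    exact ⟨f, PC.toPolyTime hf, hpr, hfL⟩
  · obtain ⟨f, hf, hpr, hfL⟩ := hardPr_minSum L hL
    have h1 : PolyTime (fun x => bits (f x)) := PC.toPolyTime hf
    have h2 : PolyTime (fun x => A (bits (f x))) := H642R2.TMSim.polyTime_comp hA h1
    refine ⟨fun x => [decide (A (bits (f x)) = [true])], polyTime_test h2 poly_eq_true, fun x => ?_⟩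
    rw [hfL x, ← h (f x) (hpr x)]
    simp
  · refine ⟨alg, polyTime_alg, fun M hM => ?_⟩
    rw [alg_code]
    refine ⟨fun m => ?_, ?_⟩
    · rw [← runM_correct hM]
      exact bits_injective.eq_iff
    · rw [← runM_none hM]
      exact bits_injective.eq_iff
  · refine ⟨algB, polyTime_algB, fun I hI => ?_⟩
    rw [algB_code, ← dec_iff hI]
    simp

end Pool.Agent.Results.MP_ec274c_lc.MinSumComplexity
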